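import Pool.Agent.Run7.h71.CD.Stm

/-!
# Project CD (helper71): the piece OUT
-/

set_option autoImplicit false

namespace Pool.Agent.Run7.h957.CDo

open Set Filter Topology
open scoped ContDiff
open Pool.Agent.Run7.h71.CD

section
variable {O : Set E3}

/-- evaluation -/
def ev (x : O) : Sm O →ₐ[ℝ] ℝ := (Pi.evalAlgHom ℝ (fun _ : O => ℝ) x).comp (Sm O).val

theorem ev_apply (x : O) (f : Sm O) : ev x f = f.1 x := rfl

/-- a smooth extension -/
noncomputable def ex (f : Sm O) : E3 → ℝ := Classical.choose f.2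

theorem ex_smooth (f : Sm O) : ContDiffOn ℝ ∞ (ex f) O := (Classical.choose_spec f.2).1

theorem ex_val (f : Sm O) (x : O) : ex f x = ev x f := ((Classical.choose_spec f.2).2 x).symm

theorem mk_ex (f : Sm O) : mk (ex f) (ex_smooth f) = f := Sm.ext' fun x => ex_val f x

theorem fderiv_ex {d : Fin 3 → Derivation ℝ (Sm O) (Sm O)} (hd : IsD O d) (f : Sm O) (x : O)
    (k : Fin 3) : fderiv ℝ (ex f) x (Pi.single k 1) = ev x (d k f) := by
  rw [← hd.eq k (ex f) (ex_smooth f) x, mk_ex]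
  rfl

theorem clm_sum (L : E3 →L[ℝ] ℝ) (V : E3) : L V = ∑ k, V k * L (Pi.single k 1) := by
  have h : V = ∑ k, V k • (Pi.single k (1 : ℝ) : E3) := by
    ext j
    simp [Finset.sum_apply, Pi.single_apply]
  conv_lhs => rw [h]
  rw [map_sum]
  refine Finset.sum_congr rfl fun k _ => ?_
  rw [map_smul, smul_eq_mul]

theorem fderiv_ex_vec {d : Fin 3 → Derivation ℝ (Sm O) (Sm O)} (hd : IsD O d) (f : Sm O) (x : O)
    (V : E3) : fderiv ℝ (ex f) x V = ∑ k, V k * ev x (d k f) := by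
  rw [clm_sum]
  refine Finset.sum_congr rfl fun k _ => ?_
  rw [fderiv_ex hd]

end

section alg
variable {A : Type} [CommRing A] [Algebra ℝ A]

omit [Algebra ℝ A] in
theorem det_frame (X ζ ν : Fin 3 → A) : (Matrix.of ![X, ζ, ν]).det =
    X 0 * ζ 1 * ν 2 - X 0 * ζ 2 * ν 1 - X 1 * ζ 0 * ν 2 + X 1 * ζ 2 * ν 0 + X 2 * ζ 0 * ν 1 -
      X 2 * ζ 1 * ν 0 := by
  rw [Matrix.det_fin_three]
  simp

theorem Z_det {Z N E : Derivation ℝ A A} {X ζ ν : Fin 3 → A} {a b p q l m n : A}
    (h : Frm Z N E X ζ ν a b p q l m n) : Z (Matrix.of ![X, ζ, ν]).det = 0 := by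
  rw [det_frame]
  simp only [map_sub, map_add, Derivation.leibniz, smul_eq_mul, h.ZX, h.Zζ, h.Zν]
  ring

theorem E_det {Z N E : Derivation ℝ A A} {X ζ ν : Fin 3 → A} {a b p q l m n : A}
    (h : Frm Z N E X ζ ν a b p q l m n) :
    E (Matrix.of ![X, ζ, ν]).det = 3 * (Matrix.of ![X, ζ, ν]).det := by
  rw [det_frame]
  simp only [map_sub, map_add, Derivation.leibniz, smul_eq_mul, h.EX, h.Eζ, h.Eν]
  ring

end alg

end Pool.Agent.Run7.h957.CDo

namespace Pool.Agent.Run7.h71.CD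

open Set Filter Topology
open scoped ContDiff
open Pool.Agent.Run7.h957.CDo

theorem OUT : S_OUT := by
  intro hLFT hRING hJETS hFR hSTR hTHETA hTRANS U F ζ hL hF
  obtain ⟨hO, hsm, -, -, -, -, -⟩ := hLFT U F hL.isOpen hL.smooth
  obtain ⟨d, hd⟩ := hRING (cone U) hO
  obtain ⟨Xc, Zc, ν, M, hXc, hZc, hM0, hJ⟩ := hJETS U F ζ hL hF d hd
  obtain ⟨Z, N, E, a, b, p, q, l, m, n, hFrm, hZq, hZNq, hMν, hE, hZ, hN⟩ :=
    hFR (Sm (cone U)) d Xc Zc ν M hJ
  obtain ⟨t, hSys, ha, hm, hl, hn⟩ := hSTR (Sm (cone U)) Z N E Xc Zc ν a b p q l m n hFrm hZq hZNq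
  have ht : t = 0 := hTHETA (Sm (cone U)) Z N E _ b p q t hSys
  subst ht
  obtain ⟨B, C, hBs, hCs, hBd, hZB, hNB, hEB, hZC, hNC, hEC, hBX, hCX, hBζ, hCζ⟩ :=
    hTRANS (Sm (cone U)) Z N E Xc Zc ν a b p q l m n hFrm hSys
      (by rw [ha]; ring) (by rw [hm]; ring) hl hn
  -- the inverse frame
  obtain ⟨P, hP⟩ : ∃ P : Matrix (Fin 3) (Fin 3) (Sm (cone U)), P = Matrix.of ![Xc, Zc, ν] :=
    ⟨_, rfl⟩
  have hPu : IsUnit P.det := by rw [hP]; exact hJ.det
  have hPP : P⁻¹ * P = 1 := Matrix.nonsing_inv_mul P hPu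
  have hkj : ∀ k j : Fin 3, P⁻¹ k 0 * Xc j + P⁻¹ k 1 * Zc j + P⁻¹ k 2 * ν j =
      if k = j then 1 else 0 := by
    intro k j
    have h1 := congrFun (congrFun hPP k) j
    rw [Matrix.mul_apply, Fin.sum_univ_three, Matrix.one_apply] at h1
    rw [← h1, hP]
    rfl
  have hd' : ∀ (k : Fin 3) (f : Sm (cone U)),
      d k f = P⁻¹ k 0 * E f + P⁻¹ k 1 * Z f + P⁻¹ k 2 * N f := by
    intro k f
    rw [hE, hZ, hN, Finset.mul_sum, Finset.mul_sum, Finset.mul_sum, ← Finset.sum_add_distrib,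
      ← Finset.sum_add_distrib]
    have h1 : ∀ j, P⁻¹ k 0 * (Xc j * d j f) + P⁻¹ k 1 * (Zc j * d j f) +
        P⁻¹ k 2 * (ν j * d j f) = if k = j then d j f else 0 := by
      intro j
      have h2 : P⁻¹ k 0 * (Xc j * d j f) + P⁻¹ k 1 * (Zc j * d j f) +
          P⁻¹ k 2 * (ν j * d j f) = (P⁻¹ k 0 * Xc j + P⁻¹ k 1 * Zc j + P⁻¹ k 2 * ν j) * d j f := by
        ring
      rw [h2, hkj]
      split_ifs
      · rw [one_mul]
      · rw [zero_mul]
    rw [Finset.sum_congr rfl fun j _ => h1 j, Finset.sum_ite_eq, if_pos (Finset.mem_univ k)]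
  -- the connection coefficients
  obtain ⟨W, hW⟩ : ∃ W : Fin 3 → Fin 4 → Sm (cone U), W = fun k =>
    ![-2 * P⁻¹ k 0 - 2 * q * P⁻¹ k 2, -P⁻¹ k 2, -4 * p * P⁻¹ k 1, -2 * P⁻¹ k 0] := ⟨_, rfl⟩
  have hW0 : ∀ k, W k 0 = -2 * P⁻¹ k 0 - 2 * q * P⁻¹ k 2 := fun k => by rw [hW]; rfl
  have hW1 : ∀ k, W k 1 = -P⁻¹ k 2 := fun k => by rw [hW]; rfl
  have hW2 : ∀ k, W k 2 = -4 * p * P⁻¹ k 1 := fun k => by rw [hW]; rfl
  have hW3 : ∀ k, W k 3 = -2 * P⁻¹ k 0 := fun k => by rw [hW]; rfl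
  have hdB : ∀ k i j, d k (B i j) = W k 0 * B i j + W k 1 * C i j := by
    intro k i j
    rw [hd', hEB, hZB, hNB, hW0, hW1]
    ring
  have hdC : ∀ k i j, d k (C i j) = W k 2 * B i j + W k 3 * C i j := by
    intro k i j
    rw [hd', hEC, hZC, hNC, hW2, hW3]
    ring
  refine ⟨fun X i j => ex (B i j) X, fun X i j => ex (C i j) X, fun k r X => ex (W k r) X,
    ex P.det, ?_, ?_, ?_, ex_smooth _, ?_, ?_⟩
  · refine ⟨fun i j => ex_smooth _, fun i j => ex_smooth _, fun k r => (ex_smooth _).continuousOn,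
      ?_, ?_⟩
    · intro X hX k i j
      have h1 := fderiv_ex hd (B i j) ⟨X, hX⟩ k
      show fderiv ℝ (ex (B i j)) X (Pi.single k 1) = ex (W k 0) X * ex (B i j) X +
        ex (W k 1) X * ex (C i j) X
      rw [h1, hdB, map_add, map_mul, map_mul, ← ex_val, ← ex_val, ← ex_val, ← ex_val]
    · intro X hX k i j
      have h1 := fderiv_ex hd (C i j) ⟨X, hX⟩ k
      show fderiv ℝ (ex (C i j)) X (Pi.single k 1) = ex (W k 2) X * ex (B i j) X +
        ex (W k 3) X * ex (C i j) X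
      rw [h1, hdC, map_add, map_mul, map_mul, ← ex_val, ← ex_val, ← ex_val, ← ex_val]
  · intro X hX
    obtain ⟨x, hx⟩ : ∃ x : cone U, x = ⟨X, hX⟩ := ⟨_, rfl⟩
    have hev : ∀ f : Sm (cone U), ex f X = ev x f := by
      intro f
      rw [hx]
      exact ex_val f ⟨X, hX⟩
    have hXv : ∀ i, ev x (Xc i) = X i := by
      intro i
      rw [hx]
      exact hXc i _
    refine ⟨?_, ?_, ?_, ?_, ?_⟩
    · ext i j
      show ex (B j i) X = ex (B i j) X
      rw [hBs.apply]
    · ext i j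
      show ex (C j i) X = ex (C i j) X
      rw [hCs.apply]
    · have h1 : (Matrix.of fun i j => ex (B i j) X) = (ev x).toRingHom.mapMatrix B := by
        ext i j
        exact hev _
      have h2 : (Matrix.of fun i j => ex (B i j) X).det = ev x B.det := by
        rw [h1, ← RingHom.map_det]
        rfl
      show (Matrix.of fun i j => ex (B i j) X).det ≠ 0
      rw [h2]
      exact (hBd.map (ev x)).ne_zero
    · have h1 := congrArg (ev x) hBX
      simp only [map_sum, map_mul, map_zero, hXv] at h1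
      unfold qf
      simp only [hev]
      exact h1
    · have h1 := congrArg (ev x) hCX
      simp only [map_sum, map_mul, hXv, map_ofNat] at h1
      unfold qf
      simp only [hev]
      exact h1
  · intro X hX
    obtain ⟨x, hx⟩ : ∃ x : cone U, x = ⟨X, hX⟩ := ⟨_, rfl⟩
    have hev : ∀ f : Sm (cone U), ex f X = ev x f := by
      intro f
      rw [hx]
      exact ex_val f ⟨X, hX⟩
    have hXv : ∀ i, ev x (Xc i) = X i := by
      intro i
      rw [hx]
      exact hXc i _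
    have hZv : ∀ i, ev x (Zc i) = ζ X i := by
      intro i
      rw [hx]
      exact hZc i _
    constructor
    · have h1 := congrArg (ev x) hBζ
      simp only [map_sum, map_mul, map_zero, hXv, hZv] at h1
      simp only [hev]
      exact h1
    · have h1 := congrArg (ev x) hCζ
      simp only [map_sum, map_mul, map_zero, hXv, hZv] at h1
      simp only [hev]
      exact h1
  · intro X hX
    obtain ⟨x, hx⟩ : ∃ x : cone U, x = ⟨X, hX⟩ := ⟨_, rfl⟩
    have hxX : (x : E3) = X := by rw [hx]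
    have hev : ∀ f : Sm (cone U), ex f X = ev x f := by
      intro f
      rw [hx]
      exact ex_val f ⟨X, hX⟩
    have hXv : ∀ i, ev x (Xc i) = X i := by
      intro i
      rw [hx]
      exact hXc i _
    have hZv : ∀ i, ev x (Zc i) = ζ X i := by
      intro i
      rw [hx]
      exact hZc i _
    refine ⟨?_, ?_, ?_⟩
    · rw [hev]
      exact (hPu.map (ev x)).ne_zero
    · have h1 := fderiv_ex_vec hd P.det x (ζ X)
      rw [hxX] at h1
      have h2 := congrArg (ev x) (hZ P.det)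
      have h3 : Z P.det = 0 := by rw [hP]; exact Z_det hFrm
      rw [h3, map_zero, map_sum] at h2
      simp only [map_mul, hZv] at h2
      rw [h1, ← h2]
    · have h1 := fderiv_ex_vec hd P.det x X
      rw [hxX] at h1
      have h2 := congrArg (ev x) (hE P.det)
      have h3 : E P.det = 3 * P.det := by rw [hP]; exact E_det hFrm
      rw [h3, map_mul, map_sum] at h2
      simp only [map_mul, hXv, map_ofNat] at h2
      rw [h1, ← h2, hev]
  · intro X hX V hV
    obtain ⟨x, hx⟩ : ∃ x : cone U, x = ⟨X, hX⟩ := ⟨_, rfl⟩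
    have hxX : (x : E3) = X := by rw [hx]
    have hXv : ∀ i, ev x (Xc i) = X i := by
      intro i
      rw [hx]
      exact hXc i _
    have hZv : ∀ i, ev x (Zc i) = ζ X i := by
      intro i
      rw [hx]
      exact hZc i _
    have hMv : ∀ j, ev x (M 0 j) = fderiv ℝ (lft F) X (Pi.single j 1) := by
      intro j
      rw [hx]
      exact hM0 j _
    -- the coefficients
    obtain ⟨c, hc⟩ : ∃ c : Fin 3 → ℝ, c = fun i => ∑ k, V k * ev x (P⁻¹ k i) := ⟨_, rfl⟩
    have hdec : ∀ j, V j = c 0 * X j + c 1 * ζ X j + c 2 * ev x (ν j) := by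
      intro j
      rw [hc]
      simp only
      rw [Finset.sum_mul, Finset.sum_mul, Finset.sum_mul, ← Finset.sum_add_distrib,
        ← Finset.sum_add_distrib]
      have h1 : ∀ k, V k * ev x (P⁻¹ k 0) * X j + V k * ev x (P⁻¹ k 1) * ζ X j +
          V k * ev x (P⁻¹ k 2) * ev x (ν j) = if k = j then V k else 0 := by
        intro k
        have h2 := congrArg (ev x) (hkj k j)
        rw [map_add, map_add, map_mul, map_mul, map_mul, hXv, hZv] at h2
        have h3 : V k * ev x (P⁻¹ k 0) * X j + V k * ev x (P⁻¹ k 1) * ζ X j +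
          V k * ev x (P⁻¹ k 2) * ev x (ν j) = V k * (ev x (P⁻¹ k 0) * X j +
            ev x (P⁻¹ k 1) * ζ X j + ev x (P⁻¹ k 2) * ev x (ν j)) := by ring
        rw [h3, h2]
        split_ifs
        · rw [map_one, mul_one]
        · rw [map_zero, mul_zero]
      rw [Finset.sum_congr rfl fun k _ => h1 k, Finset.sum_ite_eq', if_pos (Finset.mem_univ j)]
    have hc2 : c 2 = 0 := by
      rw [clm_sum] at hV
      simp only [← hMv] at hV
      have e0 := congrArg (ev x) hJ.X0
      have e1 := congrArg (ev x) hJ.f1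
      have e2 := congrArg (ev x) hMν
      unfold dot at e0 e1 e2
      simp only [map_add, map_mul, map_zero, map_one, hXv, hZv, Fin.sum_univ_three] at e0 e1 e2
      rw [Fin.sum_univ_three, hdec 0, hdec 1, hdec 2] at hV
      linear_combination hV - c 0 * e0 - c 1 * e1 - c 2 * e2
    refine ⟨c 0, c 1, ?_⟩
    ext j
    rw [hdec j, hc2, zero_mul, add_zero]
    rfl

end Pool.Agent.Run7.h71.CD
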