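import Mathlib

/-!
The perturbative invariants of the integral homology spheres which are obtained by surgery on the
Borromean rings: definitions.
-/

set_option autoImplicit false

namespace Run7.h957.Bor

open Finset

/-- `exp (c h)`, a formal Laurent series in the variable `h`, with `q = exp h` -/
noncomputable def expSeries (c : ℚ) : LaurentSeries ℚ :=
  HahnSeries.ofPowerSeries ℤ ℚ (PowerSeries.rescale c (PowerSeries.exp ℚ))

/-- `{i} = q ^ (i / 2) - q ^ (- i / 2)` -/
noncomputable def br (i : ℕ) : LaurentSeries ℚ := expSeries ((i : ℚ) / 2) - expSeries (-((i : ℚ) / 2))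

/-- `{k}! = {1} {2} ⋯ {k}` -/
noncomputable def brf (k : ℕ) : LaurentSeries ℚ := ∏ i ∈ range k, br (i + 1)

/-- The coefficients of the twisting element:
`c_k(p) = ∑_j (-1) ^ j q ^ (p j (j + 1)) {2 j + 1} / ({k + j + 1}! {k - j}!)`. -/
noncomputable def twist (k : ℕ) (p : ℤ) : LaurentSeries ℚ :=
  ∑ j ∈ range (k + 1), (-1) ^ j * expSeries ((p : ℚ) * j * (j + 1)) * br (2 * j + 1) /
    (brf (k + j + 1) * brf (k - j))

/-- The `k`-th term `({2 k + 1}! {k}! ^ 2 / {1}) c_k(l) c_k(m) c_k(n)` of the cyclotomic expansion. -/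
noncomputable def term (k : ℕ) (l m n : ℤ) : LaurentSeries ℚ :=
  brf (2 * k + 1) * brf k ^ 2 / br 1 * (twist k l * twist k m * twist k n)

/-- The power series in `h` which is the sum of the terms: the `k`-th term is divisible by `h ^ k`,
so that only the terms with `k ≤ d` contribute to the coefficient of `h ^ d`. -/
noncomputable def ohtsuki (l m n : ℤ) : PowerSeries ℚ :=
  PowerSeries.mk fun d => ∑ k ∈ range (d + 1), (term k l m n).coeff d

end Run7.h957.Bor
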