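import Pool.Agent.Run7.h957.BorMain

set_option autoImplicit false

namespace Run7.h957.Bor

open Finset PowerSeries

lemma twoJ : J (pr 1) 1 0 (1 / 24) 0 := (J.pr 1).congr (by norm_num) rfl (by norm_num) rfl

lemma jS1 (p : ℤ) : J (S 1 p) 0 (-p) (-p ^ 2) (-(2 * p ^ 3) / 3 + 5 * p / 24) := by
  have h : S 1 p = (-1) ^ 0 * ex ((p : ℚ) * (0 : ℕ) * ((0 : ℕ) + 1)) * pr (2 * 0 + 1) *
      ((prf (1 + 0 + 1))⁻¹ * (prf (1 - 0))⁻¹) + (-1) ^ 1 * ex ((p : ℚ) * (1 : ℕ) * ((1 : ℕ) + 1)) *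
      pr (2 * 1 + 1) * ((prf (1 + 1 + 1))⁻¹ * (prf (1 - 1))⁻¹) := by
    unfold S
    rw [sum_range_succ, sum_range_succ, sum_range_zero, zero_add]
  rw [h, pow_zero, pow_one]
  have h0 := ((J.one.mul (J.ex ((p : ℚ) * (0 : ℕ) * ((0 : ℕ) + 1)))).mul (J.pr (2 * 0 + 1))).mul
    ((J.inv J.prf2 (by norm_num)).mul (J.inv J.prf1 (by norm_num)))
  have h1 := ((J.one.neg.mul (J.ex ((p : ℚ) * (1 : ℕ) * ((1 : ℕ) + 1)))).mul (J.pr (2 * 1 + 1))).mul
    ((J.inv J.prf3 (by norm_num)).mul (J.inv J.prf0 (by norm_num)))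
  refine (h0.add h1).congr ?_ ?_ ?_ ?_ <;> push_cast <;> ring

lemma jS2 (p : ℤ) : J (S 2 p) 0 0 (p ^ 2 / 2) ((16 * p ^ 3 - p) / 12) := by
  have h : S 2 p = (-1) ^ 0 * ex ((p : ℚ) * (0 : ℕ) * ((0 : ℕ) + 1)) * pr (2 * 0 + 1) *
      ((prf (2 + 0 + 1))⁻¹ * (prf (2 - 0))⁻¹) + (-1) ^ 1 * ex ((p : ℚ) * (1 : ℕ) * ((1 : ℕ) + 1)) *
      pr (2 * 1 + 1) * ((prf (2 + 1 + 1))⁻¹ * (prf (2 - 1))⁻¹) +
      (-1) ^ 2 * ex ((p : ℚ) * (2 : ℕ) * ((2 : ℕ) + 1)) *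
      pr (2 * 2 + 1) * ((prf (2 + 2 + 1))⁻¹ * (prf (2 - 2))⁻¹) := by
    unfold S
    rw [sum_range_succ, sum_range_succ, sum_range_succ, sum_range_zero, zero_add]
  rw [h, pow_zero, pow_one, neg_one_sq]
  have h0 := ((J.one.mul (J.ex ((p : ℚ) * (0 : ℕ) * ((0 : ℕ) + 1)))).mul (J.pr (2 * 0 + 1))).mul
    ((J.inv J.prf3 (by norm_num)).mul (J.inv J.prf2 (by norm_num)))
  have h1 := ((J.one.neg.mul (J.ex ((p : ℚ) * (1 : ℕ) * ((1 : ℕ) + 1)))).mul (J.pr (2 * 1 + 1))).mul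
    ((J.inv J.prf4 (by norm_num)).mul (J.inv J.prf1 (by norm_num)))
  have h2 := ((J.one.mul (J.ex ((p : ℚ) * (2 : ℕ) * ((2 : ℕ) + 1)))).mul (J.pr (2 * 2 + 1))).mul
    ((J.inv J.prf5 (by norm_num)).mul (J.inv J.prf0 (by norm_num)))
  refine ((h0.add h1).add h2).congr ?_ ?_ ?_ ?_ <;> push_cast <;> ring

lemma jS3 (p : ℤ) : J (S 3 p) 0 0 0 (-p ^ 3 / 6) := by
  have h : S 3 p = (-1) ^ 0 * ex ((p : ℚ) * (0 : ℕ) * ((0 : ℕ) + 1)) * pr (2 * 0 + 1) *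
      ((prf (3 + 0 + 1))⁻¹ * (prf (3 - 0))⁻¹) + (-1) ^ 1 * ex ((p : ℚ) * (1 : ℕ) * ((1 : ℕ) + 1)) *
      pr (2 * 1 + 1) * ((prf (3 + 1 + 1))⁻¹ * (prf (3 - 1))⁻¹) +
      (-1) ^ 2 * ex ((p : ℚ) * (2 : ℕ) * ((2 : ℕ) + 1)) *
      pr (2 * 2 + 1) * ((prf (3 + 2 + 1))⁻¹ * (prf (3 - 2))⁻¹) +
      (-1) ^ 3 * ex ((p : ℚ) * (3 : ℕ) * ((3 : ℕ) + 1)) *
      pr (2 * 3 + 1) * ((prf (3 + 3 + 1))⁻¹ * (prf (3 - 3))⁻¹) := by
    unfold S
    rw [sum_range_succ, sum_range_succ, sum_range_succ, sum_range_succ, sum_range_zero, zero_add]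
  have e3 : (-1 : PowerSeries ℚ) ^ 3 = -1 := by norm_num
  rw [h, pow_zero, pow_one, neg_one_sq, e3]
  have h0 := ((J.one.mul (J.ex ((p : ℚ) * (0 : ℕ) * ((0 : ℕ) + 1)))).mul (J.pr (2 * 0 + 1))).mul
    ((J.inv J.prf4 (by norm_num)).mul (J.inv J.prf3 (by norm_num)))
  have h1 := ((J.one.neg.mul (J.ex ((p : ℚ) * (1 : ℕ) * ((1 : ℕ) + 1)))).mul (J.pr (2 * 1 + 1))).mul
    ((J.inv J.prf5 (by norm_num)).mul (J.inv J.prf2 (by norm_num)))
  have h2 := ((J.one.mul (J.ex ((p : ℚ) * (2 : ℕ) * ((2 : ℕ) + 1)))).mul (J.pr (2 * 2 + 1))).mul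
    ((J.inv J.prf6 (by norm_num)).mul (J.inv J.prf1 (by norm_num)))
  have h3 := ((J.one.neg.mul (J.ex ((p : ℚ) * (3 : ℕ) * ((3 : ℕ) + 1)))).mul (J.pr (2 * 3 + 1))).mul
    ((J.inv J.prf7 (by norm_num)).mul (J.inv J.prf0 (by norm_num)))
  refine (((h0.add h1).add h2).add h3).congr ?_ ?_ ?_ ?_ <;> push_cast <;> ring

lemma S0 (p : ℤ) : S 0 p = 1 := by
  unfold S
  rw [sum_range_succ, sum_range_zero, zero_add]
  have h1 : ex ((p : ℚ) * (0 : ℕ) * ((0 : ℕ) + 1)) = 1 := by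
    unfold ex
    simp
  have h2 : prf (0 + 0 + 1) = pr (2 * 0 + 1) := by
    rw [prf_succ]
    unfold prf
    simp
  have h3 : prf (0 - 0) = 1 := by unfold prf; simp
  rw [h1, h2, h3, pow_zero, one_mul, one_mul]
  have h4 : (1 : PowerSeries ℚ)⁻¹ = 1 := by
    have := PowerSeries.mul_inv_cancel (1 : PowerSeries ℚ) (by simp)
    rwa [one_mul] at this
  rw [h4, mul_one]
  exact PowerSeries.mul_inv_cancel _ (by rw [pr_const]; norm_num)

lemma A0 : A 0 = 1 := by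
  unfold A
  have h2 : prf (2 * 0 + 1) = pr 1 := by
    rw [prf_succ]
    unfold prf
    simp
  have h3 : prf 0 = 1 := by unfold prf; simp
  rw [h2, h3, one_pow, mul_one]
  exact PowerSeries.mul_inv_cancel _ (by rw [pr_const]; norm_num)

lemma jA1 : J (A 1) 6 0 (15 / 4) 0 := by
  unfold A
  rw [pow_two]
  refine ((J.prf3.mul (J.prf1.mul J.prf1)).mul (J.inv twoJ (by norm_num))).congr ?_ ?_ ?_ ?_ <;>
    norm_num

lemma jA2 : J (A 2) 480 0 (480 * (55 / 24 + 10 / 24 - 1 / 24)) 0 := by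
  unfold A
  rw [pow_two]
  refine ((J.prf5.mul (J.prf2.mul J.prf2)).mul (J.inv twoJ (by norm_num))).congr ?_ ?_ ?_ ?_ <;>
    norm_num

lemma jA3 : J (A 3) 181440 0 (181440 * (140 / 24 + 28 / 24 - 1 / 24)) 0 := by
  unfold A
  rw [pow_two]
  refine ((J.prf7.mul (J.prf3.mul J.prf3)).mul (J.inv twoJ (by norm_num))).congr ?_ ?_ ?_ ?_ <;>
    norm_num

/-- division by a power of the variable -/
lemma exists_shift {f : PowerSeries ℚ} {k : ℕ} (h : ∀ i < k, coeff i f = 0) :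
    ∃ g, f = X ^ k * g ∧ ∀ i, coeff i g = coeff (i + k) f := by
  obtain ⟨g, hg⟩ := X_pow_dvd_iff.2 h
  refine ⟨g, hg, fun i => ?_⟩
  rw [hg, add_comm, add_comm k i, coeff_X_pow_mul]

lemma term0 (l m n : ℤ) (d : ℕ) (hd : 0 < d) : (term 0 l m n).coeff d = 0 := by
  rw [term_coeff, S0, S0, S0, A0, mul_one, mul_one, mul_one, coeff_one]
  rw [if_neg (by omega)]

lemma term1 (l m n : ℤ) : (term 1 l m n).coeff 1 = -6 * l * m * n ∧
    (term 1 l m n).coeff 2 = -6 * l * m * n * (l + m + n) ∧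
    (term 1 l m n).coeff 3 =
      -4 * l * m * n * (l + m + n) ^ 2 + 2 * l * m * n * (l * m + m * n + n * l) := by
  have key : ∀ p : ℤ, ∃ g, S 1 p = X ^ 1 * g ∧ J g (-p) (-p ^ 2) (-(2 * p ^ 3) / 3 + 5 * p / 24)
      (coeff 3 g) := by
    intro p
    obtain ⟨g, hg, hc⟩ := exists_shift (f := S 1 p) (k := 1) (by
      intro i hi
      have : i = 0 := by omega
      subst this
      exact (jS1 p).1)
    exact ⟨g, hg, by rw [hc 0]; exact (jS1 p).2.1, by rw [hc 1]; exact (jS1 p).2.2.1,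
      by rw [hc 2]; exact (jS1 p).2.2.2, rfl⟩
  obtain ⟨a, ha, ja⟩ := key l
  obtain ⟨b, hb, jb⟩ := key m
  obtain ⟨c, hc, jc⟩ := key n
  have e : A 1 * (S 1 l * S 1 m * S 1 n) = X ^ 3 * (A 1 * (a * b * c)) := by
    rw [ha, hb, hc]; ring
  have j := jA1.mul ((ja.mul jb).mul jc)
  have t : ∀ d : ℕ, (term 1 l m n).coeff ((d + 1 : ℕ) : ℤ) = coeff d (A 1 * (a * b * c)) := by
    intro d
    rw [term_coeff, e]
    have : d + 1 + 2 * 1 = d + 3 := by omega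
    rw [this, coeff_X_pow_mul]
  refine ⟨?_, ?_, ?_⟩
  · have := t 0
    rw [j.1] at this
    norm_num at this
    rw [this]; ring
  · have := t 1
    rw [j.2.1] at this
    norm_num at this
    rw [this]; ring
  · have := t 2
    rw [j.2.2.1] at this
    norm_num at this
    rw [this]; ring

lemma term2 (l m n : ℤ) : (term 2 l m n).coeff 2 = 60 * (l * m * n) ^ 2 ∧
    (term 2 l m n).coeff 3 =
      160 * (l * m * n) ^ 2 * (l + m + n) - 10 * (l * m * n) * (l * m + m * n + n * l) := by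
  have key : ∀ p : ℤ, ∃ g, S 2 p = X ^ 2 * g ∧ J g (p ^ 2 / 2) ((16 * p ^ 3 - p) / 12) (coeff 2 g)
      (coeff 3 g) := by
    intro p
    obtain ⟨g, hg, hc⟩ := exists_shift (f := S 2 p) (k := 2) (by
      intro i hi
      have : i = 0 ∨ i = 1 := by omega
      rcases this with rfl | rfl
      · exact (jS2 p).1
      · exact (jS2 p).2.1)
    exact ⟨g, hg, by rw [hc 0]; exact (jS2 p).2.2.1, by rw [hc 1]; exact (jS2 p).2.2.2,
      rfl, rfl⟩
  obtain ⟨a, ha, ja⟩ := key l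
  obtain ⟨b, hb, jb⟩ := key m
  obtain ⟨c, hc, jc⟩ := key n
  have e : A 2 * (S 2 l * S 2 m * S 2 n) = X ^ 6 * (A 2 * (a * b * c)) := by
    rw [ha, hb, hc]; ring
  have j := jA2.mul ((ja.mul jb).mul jc)
  have t : ∀ d : ℕ, (term 2 l m n).coeff ((d + 2 : ℕ) : ℤ) = coeff d (A 2 * (a * b * c)) := by
    intro d
    rw [term_coeff, e]
    have : d + 2 + 2 * 2 = d + 6 := by omega
    rw [this, coeff_X_pow_mul]
  refine ⟨?_, ?_⟩
  · have := t 0
    rw [j.1] at this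
    norm_num at this
    rw [this]; ring
  · have := t 1
    rw [j.2.1] at this
    norm_num at this
    rw [this]; ring

lemma term3 (l m n : ℤ) : (term 3 l m n).coeff 3 = -840 * (l * m * n) ^ 3 := by
  have key : ∀ p : ℤ, ∃ g, S 3 p = X ^ 3 * g ∧ J g (-p ^ 3 / 6) (coeff 1 g) (coeff 2 g)
      (coeff 3 g) := by
    intro p
    obtain ⟨g, hg, hc⟩ := exists_shift (f := S 3 p) (k := 3) (by
      intro i hi
      have : i = 0 ∨ i = 1 ∨ i = 2 := by omega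
      rcases this with rfl | rfl | rfl
      · exact (jS3 p).1
      · exact (jS3 p).2.1
      · exact (jS3 p).2.2.1)
    exact ⟨g, hg, by rw [hc 0]; exact (jS3 p).2.2.2, rfl, rfl, rfl⟩
  obtain ⟨a, ha, ja⟩ := key l
  obtain ⟨b, hb, jb⟩ := key m
  obtain ⟨c, hc, jc⟩ := key n
  have e : A 3 * (S 3 l * S 3 m * S 3 n) = X ^ 9 * (A 3 * (a * b * c)) := by
    rw [ha, hb, hc]; ring
  have j := jA3.mul ((ja.mul jb).mul jc)
  have t : ∀ d : ℕ, (term 3 l m n).coeff ((d + 3 : ℕ) : ℤ) = coeff d (A 3 * (a * b * c)) := by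
    intro d
    rw [term_coeff, e]
    have : d + 3 + 2 * 3 = d + 9 := by omega
    rw [this, coeff_X_pow_mul]
  have := t 0
  rw [j.1] at this
  norm_num at this
  rw [this]; ring

lemma ohtsuki_one (l m n : ℤ) : coeff 1 (ohtsuki l m n) = -6 * (l * m * n) := by
  unfold ohtsuki
  rw [coeff_mk, sum_range_succ, sum_range_succ, sum_range_zero, term0 _ _ _ _ (by norm_num)]
  have := (term1 l m n).1
  push_cast
  rw [this]; ring

lemma ohtsuki_two (l m n : ℤ) : coeff 2 (ohtsuki l m n) =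
    -6 * (l * m * n) * (l + m + n) + 60 * (l * m * n) ^ 2 := by
  unfold ohtsuki
  rw [coeff_mk, sum_range_succ, sum_range_succ, sum_range_succ, sum_range_zero,
    term0 _ _ _ _ (by norm_num)]
  have := (term1 l m n).2.1
  have h2 := (term2 l m n).1
  push_cast
  rw [this, h2]; ring

lemma ohtsuki_three (l m n : ℤ) : coeff 3 (ohtsuki l m n) =
    -4 * (l * m * n) * (l + m + n) ^ 2 - 8 * (l * m * n) * (l * m + m * n + n * l) +
      160 * (l * m * n) ^ 2 * (l + m + n) - 840 * (l * m * n) ^ 3 := by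
  unfold ohtsuki
  rw [coeff_mk, sum_range_succ, sum_range_succ, sum_range_succ, sum_range_succ, sum_range_zero,
    term0 _ _ _ _ (by norm_num)]
  have := (term1 l m n).2.2
  have h2 := (term2 l m n).2
  have h3 := (term3 l m n)
  push_cast
  rw [this, h2, h3]; ring

end Run7.h957.Bor
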