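import Pool.Agent.Run7.h957.BorDefs

set_option autoImplicit false

namespace Run7.h957.Bor

open Finset PowerSeries

/-- the first four coefficients -/
def J (f : PowerSeries ℚ) (a b c d : ℚ) : Prop :=
  coeff 0 f = a ∧ coeff 1 f = b ∧ coeff 2 f = c ∧ coeff 3 f = d

lemma J.mul {f g : PowerSeries ℚ} {a b c d a' b' c' d' : ℚ} (hf : J f a b c d) (hg : J g a' b' c' d') :
    J (f * g) (a * a') (a * b' + b * a') (a * c' + b * b' + c * a')
      (a * d' + b * c' + c * b' + d * a') := by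
  obtain ⟨h0, h1, h2, h3⟩ := hf
  obtain ⟨g0, g1, g2, g3⟩ := hg
  refine ⟨?_, ?_, ?_, ?_⟩
  · rw [coeff_mul]; simp [Finset.antidiagonal, Finset.HasAntidiagonal.antidiagonal, Multiset.Nat.antidiagonal, List.Nat.antidiagonal] ; rw [← coeff_zero_eq_constantCoeff_apply, ← coeff_zero_eq_constantCoeff_apply, h0, g0]
  all_goals
    rw [coeff_mul, Finset.Nat.sum_antidiagonal_eq_sum_range_succ (fun i j => coeff i f * coeff j g)]
    simp only [Finset.sum_range_succ, Finset.sum_range_zero, Nat.sub_zero, Nat.sub_self, zero_add,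
      Nat.reduceSub, h0, h1, h2, h3, g0, g1, g2, g3]

lemma J.add {f g : PowerSeries ℚ} {a b c d a' b' c' d' : ℚ} (hf : J f a b c d) (hg : J g a' b' c' d') :
    J (f + g) (a + a') (b + b') (c + c') (d + d') := by
  obtain ⟨h0, h1, h2, h3⟩ := hf
  obtain ⟨g0, g1, g2, g3⟩ := hg
  exact ⟨by rw [map_add, h0, g0], by rw [map_add, h1, g1], by rw [map_add, h2, g2],
    by rw [map_add, h3, g3]⟩

lemma J.neg {f : PowerSeries ℚ} {a b c d : ℚ} (hf : J f a b c d) :
    J (-f) (-a) (-b) (-c) (-d) := by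
  obtain ⟨h0, h1, h2, h3⟩ := hf
  exact ⟨by rw [map_neg, h0], by rw [map_neg, h1], by rw [map_neg, h2], by rw [map_neg, h3]⟩

lemma J.congr {f : PowerSeries ℚ} {a b c d a' b' c' d' : ℚ} (hf : J f a b c d)
    (h0 : a = a') (h1 : b = b') (h2 : c = c') (h3 : d = d') : J f a' b' c' d' := by
  subst h0 h1 h2 h3; exact hf

lemma J.one : J 1 1 0 0 0 := by
  refine ⟨by simp, ?_, ?_, ?_⟩ <;> simp [coeff_one]

/-- the inverse of an even series -/
lemma J.inv {f : PowerSeries ℚ} {a c : ℚ} (hf : J f a 0 c 0) (ha : a ≠ 0) :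
    J f⁻¹ (1 / a) 0 (-c / a ^ 2) 0 := by
  have hc : constantCoeff f = a := by rw [← coeff_zero_eq_constantCoeff_apply]; exact hf.1
  have h1 : f * f⁻¹ = 1 := PowerSeries.mul_inv_cancel f (by rw [hc]; exact ha)
  have h2 : J (f * f⁻¹) 1 0 0 0 := by rw [h1]; exact J.one
  have h3 : J f⁻¹ (coeff 0 f⁻¹) (coeff 1 f⁻¹) (coeff 2 f⁻¹) (coeff 3 f⁻¹) := ⟨rfl, rfl, rfl, rfl⟩
  obtain ⟨k0, k1, k2, k3⟩ := hf.mul h3
  obtain ⟨e0, e1, e2, e3⟩ := h2
  rw [k0] at e0
  rw [k1] at e1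
  rw [k2] at e2
  rw [k3] at e3
  have r0 : coeff 0 f⁻¹ = 1 / a := by field_simp; linarith
  have r1 : coeff 1 f⁻¹ = 0 := by
    have : a * coeff 1 f⁻¹ = 0 := by linarith
    exact (mul_eq_zero.1 this).resolve_left ha
  rw [r1, r0] at e2
  have r2 : coeff 2 f⁻¹ = -c / a ^ 2 := by
    have h4 : a * coeff 2 f⁻¹ = -(c * (1 / a)) := by linarith
    field_simp at h4 ⊢
    linarith
  rw [r1] at e3
  have r3 : coeff 3 f⁻¹ = 0 := by
    have : a * coeff 3 f⁻¹ = 0 := by linarith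
    exact (mul_eq_zero.1 this).resolve_left ha
  exact ⟨r0, r1, r2, r3⟩

/-- `exp (c h)` -/
noncomputable def ex (c : ℚ) : PowerSeries ℚ := rescale c (exp ℚ)

lemma J.ex (c : ℚ) : J (ex c) 1 c (c ^ 2 / 2) (c ^ 3 / 6) := by
  refine ⟨?_, ?_, ?_, ?_⟩ <;> rw [Bor.ex, coeff_rescale, coeff_exp] <;>
    simp [Nat.factorial] <;> ring

/-- `{i} / h` -/
noncomputable def pr (i : ℕ) : PowerSeries ℚ :=
  PowerSeries.mk fun n => coeff (n + 1) (ex ((i : ℚ) / 2) - ex (-((i : ℚ) / 2)))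

lemma X_mul_pr (i : ℕ) : X * pr i = ex ((i : ℚ) / 2) - ex (-((i : ℚ) / 2)) := by
  ext n
  cases n with
  | zero =>
    rw [map_sub, (J.ex _).1, (J.ex _).1, sub_self]
    simp
  | succ n => rw [coeff_succ_X_mul, pr, coeff_mk]

lemma J.pr (i : ℕ) : J (pr i) i 0 ((i : ℚ) ^ 3 / 24) 0 := by
  refine ⟨?_, ?_, ?_, ?_⟩ <;> rw [Bor.pr, coeff_mk, map_sub] <;>
    simp only [Bor.ex, coeff_rescale, coeff_exp] <;> simp [Nat.factorial] <;> ring

/-- `{k}! / h ^ k` -/
noncomputable def prf (k : ℕ) : PowerSeries ℚ := ∏ i ∈ range k, pr (i + 1)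

lemma prf_succ (k : ℕ) : prf (k + 1) = prf k * pr (k + 1) := by
  unfold prf; rw [prod_range_succ]

lemma J.prf0 : J (prf 0) 1 0 0 0 := by
  unfold prf; rw [range_zero, prod_empty]; exact J.one

lemma J.prf1 : J (prf 1) 1 0 (1 / 24) 0 := by
  rw [prf_succ]
  exact (J.prf0.mul (J.pr 1)).congr (by norm_num) (by norm_num) (by norm_num) (by norm_num)

lemma J.prf2 : J (prf 2) 2 0 (5 / 12) 0 := by
  rw [prf_succ]
  exact (J.prf1.mul (J.pr 2)).congr (by norm_num) (by norm_num) (by norm_num) (by norm_num)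

lemma J.prf3 : J (prf 3) 6 0 (7 / 2) 0 := by
  rw [prf_succ]
  exact (J.prf2.mul (J.pr 3)).congr (by norm_num) (by norm_num) (by norm_num) (by norm_num)

lemma J.prf4 : J (prf 4) 24 0 30 0 := by
  rw [prf_succ]
  exact (J.prf3.mul (J.pr 4)).congr (by norm_num) (by norm_num) (by norm_num) (by norm_num)

lemma J.prf5 : J (prf 5) 120 0 275 0 := by
  rw [prf_succ]
  exact (J.prf4.mul (J.pr 5)).congr (by norm_num) (by norm_num) (by norm_num) (by norm_num)

lemma J.prf6 : J (prf 6) 720 0 2730 0 := by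
  rw [prf_succ]
  exact (J.prf5.mul (J.pr 6)).congr (by norm_num) (by norm_num) (by norm_num) (by norm_num)

lemma J.prf7 : J (prf 7) 5040 0 29400 0 := by
  rw [prf_succ]
  exact (J.prf6.mul (J.pr 7)).congr (by norm_num) (by norm_num) (by norm_num) (by norm_num)

end Run7.h957.Bor
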