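import Pool.Agent.Run7.h957.BorJet

set_option autoImplicit false

namespace Run7.h957.Bor

open Finset PowerSeries

/-- the inclusion of the power series in the Laurent series -/
noncomputable abbrev ps : PowerSeries ℚ →+* LaurentSeries ℚ := HahnSeries.ofPowerSeries ℤ ℚ

lemma ps_inj : Function.Injective ps := HahnSeries.ofPowerSeries_injective

lemma expSeries_eq (c : ℚ) : expSeries c = ps (ex c) := rfl

/-- the variable `h` -/
noncomputable def hh : LaurentSeries ℚ := ps X

lemma hh_ne : hh ≠ 0 := by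
  unfold hh
  rw [Ne, map_eq_zero_iff ps ps_inj]
  exact X_ne_zero

lemma br_eq (i : ℕ) : br i = hh * ps (pr i) := by
  unfold br hh
  rw [← map_mul, X_mul_pr, map_sub]
  rfl

lemma brf_eq (k : ℕ) : brf k = hh ^ k * ps (prf k) := by
  unfold brf prf
  rw [map_prod, ← card_range k, ← prod_const, card_range, ← prod_mul_distrib]
  exact prod_congr rfl fun i _ => br_eq _

lemma pr_const (i : ℕ) : constantCoeff (pr i) = i := by
  rw [← coeff_zero_eq_constantCoeff_apply]; exact (J.pr i).1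

lemma prf_const (k : ℕ) : constantCoeff (prf k) ≠ 0 := by
  unfold prf
  rw [map_prod, prod_ne_zero_iff]
  intro i _
  rw [pr_const]
  positivity

lemma ps_inv {f : PowerSeries ℚ} (hf : constantCoeff f ≠ 0) : ps f⁻¹ = (ps f)⁻¹ := by
  have h1 : ps f * ps f⁻¹ = 1 := by rw [← map_mul, PowerSeries.mul_inv_cancel f hf, map_one]
  exact eq_inv_of_mul_eq_one_right h1

/-- `h ^ (2 k) c_k(p)` -/
noncomputable def S (k : ℕ) (p : ℤ) : PowerSeries ℚ :=
  ∑ j ∈ range (k + 1), (-1) ^ j * ex ((p : ℚ) * j * (j + 1)) * pr (2 * j + 1) *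
    ((prf (k + j + 1))⁻¹ * (prf (k - j))⁻¹)

lemma twist_eq (k : ℕ) (p : ℤ) : hh ^ (2 * k) * twist k p = ps (S k p) := by
  unfold twist S
  rw [mul_sum, map_sum]
  refine sum_congr rfl fun j hj => ?_
  have hj' : j ≤ k := by rw [mem_range] at hj; omega
  rw [br_eq, brf_eq, brf_eq, expSeries_eq]
  rw [map_mul, map_mul, map_mul, map_mul, ps_inv (prf_const _), ps_inv (prf_const _), map_pow,
    map_neg, map_one]
  have hA : ps (prf (k + j + 1)) ≠ 0 := by
    rw [Ne, map_eq_zero_iff ps ps_inj]; intro h; exact prf_const (k + j + 1) (by rw [h]; simp)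
  have hB : ps (prf (k - j)) ≠ 0 := by
    rw [Ne, map_eq_zero_iff ps ps_inj]; intro h; exact prf_const (k - j) (by rw [h]; simp)
  have hh0 := hh_ne
  have e : hh ^ (k + j + 1) * hh ^ (k - j) = hh ^ (2 * k) * hh := by
    rw [← pow_add, ← pow_succ]; congr 1; omega
  have e2 : hh ^ (k + j + 1) * ps (prf (k + j + 1)) * (hh ^ (k - j) * ps (prf (k - j))) =
      (hh ^ (2 * k) * hh) * (ps (prf (k + j + 1)) * ps (prf (k - j))) := by
    rw [← e]; ring
  rw [e2]
  have h2 : hh ^ (2 * k) ≠ 0 := pow_ne_zero _ hh0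
  field_simp

/-- `({2 k + 1}! {k}! ^ 2 / {1}) / h ^ (4 k)` -/
noncomputable def A (k : ℕ) : PowerSeries ℚ := prf (2 * k + 1) * prf k ^ 2 * (pr 1)⁻¹

lemma term_eq (k : ℕ) (l m n : ℤ) :
    hh ^ (2 * k) * term k l m n = ps (A k * (S k l * S k m * S k n)) := by
  unfold term A
  rw [map_mul, map_mul, map_mul, map_mul, map_mul, map_pow, ← twist_eq, ← twist_eq, ← twist_eq,
    brf_eq, brf_eq, br_eq, ps_inv (by rw [pr_const]; norm_num)]
  have h1 : ps (pr 1) ≠ 0 := by
    rw [Ne, map_eq_zero_iff ps ps_inj]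
    intro h
    have := pr_const 1
    rw [h] at this
    norm_num at this
  have hh0 := hh_ne
  have e : hh ^ (2 * k + 1) = hh * hh ^ (2 * k) := by rw [pow_succ]; ring
  have e2 : (hh ^ k * ps (prf k)) ^ 2 = hh ^ (2 * k) * ps (prf k) ^ 2 := by
    rw [mul_pow, ← pow_mul, mul_comm k 2]
  rw [e, e2]
  field_simp

lemma hh_pow (k : ℕ) : hh ^ k = HahnSeries.single (k : ℤ) (1 : ℚ) := by
  unfold hh
  rw [← map_pow, HahnSeries.ofPowerSeries_X_pow]

lemma term_coeff (k d : ℕ) (l m n : ℤ) :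
    (term k l m n).coeff d = coeff (d + 2 * k) (A k * (S k l * S k m * S k n)) := by
  have h := term_eq k l m n
  have h1 : (hh ^ (2 * k) * term k l m n).coeff ((d : ℤ) + ((2 * k : ℕ) : ℤ)) =
      (term k l m n).coeff d := by
    rw [hh_pow, HahnSeries.coeff_single_mul_add, one_mul]
  rw [← h1, h]
  have := LaurentSeries.coeff_coe_powerSeries (A k * (S k l * S k m * S k n)) (d + 2 * k)
  rw [← this]
  norm_cast

end Run7.h957.Bor
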