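import Pool.Agent.Run7.h957.BorFin

set_option autoImplicit false

namespace Run7.h957.Bor

open PowerSeries

/-- the elementary symmetric functions determine three integers up to their order -/
lemma perm_of_sym (l m n a b c : ℤ) (h1 : l + m + n = a + b + c)
    (h2 : l * m + m * n + n * l = a * b + b * c + c * a) (h3 : l * m * n = a * b * c) :
    List.Perm [l, m, n] [a, b, c] := by
  have h : (l - a) * (l - b) * (l - c) = 0 := by
    have e : (l - a) * (l - b) * (l - c) =
        l ^ 3 - (a + b + c) * l ^ 2 + (a * b + b * c + c * a) * l - a * b * c := by ring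
    rw [e, ← h1, ← h2, ← h3]; ring
  have key : ∀ m n x y : ℤ, m + n = x + y → m * n = x * y → List.Perm [m, n] [x, y] := by
    intro m n x y hs hp
    have h : (m - x) * (m - y) = 0 := by
      have e : (m - x) * (m - y) = m ^ 2 - (x + y) * m + x * y := by ring
      rw [e, ← hs, ← hp]; ring
    rcases mul_eq_zero.1 h with h | h
    · obtain rfl : m = x := by linarith
      obtain rfl : n = y := by linarith
      exact List.Perm.refl _
    · obtain rfl : m = y := by linarith
      obtain rfl : n = x := by linarith
      exact List.Perm.swap _ _ _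
  rcases mul_eq_zero.1 h with h | h
  · rcases mul_eq_zero.1 h with h | h
    · obtain rfl : l = a := by linarith
      refine List.Perm.cons _ (key _ _ _ _ (by linarith) ?_)
      have hs : m + n = b + c := by linarith
      nlinarith [h2, hs]
    · obtain rfl : l = b := by linarith
      have hs : m + n = a + c := by linarith
      refine List.Perm.trans (List.Perm.cons _ (key _ _ a c hs ?_)) (List.Perm.swap _ _ _)
      nlinarith [h2, hs]
  · obtain rfl : l = c := by linarith
    have hs : m + n = a + b := by linarith
    refine List.Perm.trans (List.Perm.cons _ (key _ _ a b hs ?_)) ?_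
    · nlinarith [h2, hs]
    · exact (List.Perm.swap _ _ _).trans (List.Perm.cons _ (List.Perm.swap _ _ _))

lemma sym_of_ohtsuki (l m n a b c : ℤ)
    (h1 : coeff 1 (ohtsuki l m n) = coeff 1 (ohtsuki a b c))
    (h2 : coeff 2 (ohtsuki l m n) = coeff 2 (ohtsuki a b c))
    (h3 : coeff 3 (ohtsuki l m n) = coeff 3 (ohtsuki a b c)) :
    l * m * n = 0 ∧ a * b * c = 0 ∨ List.Perm [l, m, n] [a, b, c] := by
  rw [ohtsuki_one, ohtsuki_one] at h1
  rw [ohtsuki_two, ohtsuki_two] at h2
  rw [ohtsuki_three, ohtsuki_three] at h3
  have e3 : (l : ℚ) * m * n = a * b * c := by linarith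
  by_cases h0 : a * b * c = 0
  · left
    refine ⟨?_, h0⟩
    have : ((l * m * n : ℤ) : ℚ) = ((a * b * c : ℤ) : ℚ) := by push_cast; exact e3
    rw [Int.cast_inj.1 this, h0]
  · right
    have h0' : (a : ℚ) * b * c ≠ 0 := by exact_mod_cast h0
    rw [e3] at h2 h3
    have e1 : (l : ℚ) + m + n = a + b + c := by
      have : (a * b * c : ℚ) * (l + m + n) = (a * b * c) * (a + b + c) := by linarith
      exact mul_left_cancel₀ h0' this
    rw [e1] at h3
    have e2 : (l : ℚ) * m + m * n + n * l = a * b + b * c + c * a := by
      have : (a * b * c : ℚ) * (l * m + m * n + n * l) = (a * b * c) * (a * b + b * c + c * a) := by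
        linarith
      exact mul_left_cancel₀ h0' this
    exact perm_of_sym l m n a b c (by exact_mod_cast e1) (by exact_mod_cast e2)
      (by exact_mod_cast e3)

end Run7.h957.Bor
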