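import Pool.Agent.Run7.h968.TN.Defs

/-!
# Project TN (helper968): general lemmas for step5 and iter5
-/

set_option autoImplicit false

namespace Pool.Agent.Run7.h957.TN

open Pool.Agent.Run7.h968.TN

theorem spans_univ {K : Type} [Group K] (N : Subgroup K) [Fintype (K ⧸ N)] {I : Type}
    [Fintype I] (h : I → K) (hcl : Subgroup.closure (Set.range h) = ⊤) :
    Spans N h Finset.univ := by
  have key : ∀ u ∈ Subgroup.closure (Set.range h), ∀ a : K,
      Relation.EqvGen (adj N h (Finset.univ : Finset ((K ⧸ N) × I))) a (u * a) := by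
    intro u hu
    induction hu using Subgroup.closure_induction with
    | mem x hx =>
      obtain ⟨i, rfl⟩ := hx
      intro a
      exact Relation.EqvGen.rel _ _ ⟨i, Finset.mem_univ _, rfl⟩
    | one =>
      intro a
      rw [one_mul]
      exact Relation.EqvGen.refl _
    | mul x y _ _ ihx ihy =>
      intro a
      rw [mul_assoc]
      exact Relation.EqvGen.trans _ _ _ (ihy a) (ihx (y * a))
    | inv x _ ih =>
      intro a
      have h1 := ih (x⁻¹ * a)
      rw [mul_inv_cancel_left] at h1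
      exact Relation.EqvGen.symm _ _ h1
  intro a b
  have h1 := key (b * a⁻¹) (by rw [hcl]; trivial) a
  rwa [inv_mul_cancel_right] at h1

theorem exists_min {α : Type} (P : Finset α → Prop) (F₀ : Finset α) (h₀ : P F₀) :
    ∃ F, P F ∧ ∀ F', F' ⊆ F → F' ≠ F → ¬ P F' := by
  obtain ⟨F, hF, hmin⟩ := (measure (Finset.card (α := α))).wf.has_min {F | P F} ⟨F₀, h₀⟩
  exact ⟨F, hF, fun F' hs hne hP => hmin F' hP (Finset.card_lt_card (hs.ssubset_of_ne hne))⟩

theorem card_labels {Y I : Type} [Fintype Y] [Fintype I] [DecidableEq Y] [DecidableEq I]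
    (F : Finset (Y × I)) :
    F.card = ∑ i : I, ((Finset.univ : Finset Y).filter fun y => (y, i) ∈ F).card := by
  have h1 : F = (Finset.univ : Finset (Y × I)).filter (fun p => p ∈ F) := by
    ext p
    simp
  conv_lhs => rw [h1]
  rw [Finset.card_filter, Fintype.sum_prod_type_right]
  refine Finset.sum_congr rfl fun i _ => ?_
  rw [Finset.card_filter]

theorem RF_sub {G : Type} [Group G] (hG : RF G) (H : Subgroup G) : RF H := by
  intro g hg
  obtain ⟨N, hN, hi, hgN⟩ := hG g (fun h => hg (Subtype.ext h))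
  have : N.Normal := hN
  have : N.FiniteIndex := ⟨hi⟩
  refine ⟨N.subgroupOf H, inferInstance, Subgroup.FiniteIndex.index_ne_zero, ?_⟩
  rw [Subgroup.mem_subgroupOf]
  exact hgN

/-- subgroups of large finite index -/
theorem large_index {G : Type} [Group G] (hG : RF G) (v : G) (hv : ∀ n : ℕ, 0 < n → v ^ n ≠ 1)
    (M : ℕ) : ∃ N : Subgroup G, N.Normal ∧ N.index ≠ 0 ∧ M ≤ N.index := by
  obtain ⟨N, hN, hi, hvN⟩ := hG (v ^ M.factorial) (hv _ (Nat.factorial_pos M))
  have : N.Normal := hN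
  refine ⟨N, hN, hi, ?_⟩
  by_contra hlt
  push Not at hlt
  obtain ⟨c, hc⟩ : N.index ∣ M.factorial :=
    Nat.dvd_factorial (Nat.pos_of_ne_zero hi) hlt.le
  refine hvN ?_
  rw [hc, pow_mul]
  exact N.pow_mem (N.pow_index_mem v) c

/-- packing generators in pairs -/
theorem pack {K : Type} [Group K] (T : Finset K) :
    ∃ h : Fin ((T.card + 1) / 2) → Fin 2 → K,
      (∀ t ∈ T, ∃ j i, h j i = t) ∧ ∀ j i, h j i ∈ T ∨ h j i = 1 := by
  refine ⟨fun j i => T.toList.getD (2 * (j : ℕ) + (i : ℕ)) 1, ?_, ?_⟩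
  swap
  · intro j i
    by_cases hlt : 2 * (j : ℕ) + (i : ℕ) < T.toList.length
    · left
      show T.toList.getD (2 * (j : ℕ) + (i : ℕ)) 1 ∈ T
      rw [List.getD_eq_getElem _ _ hlt, ← Finset.mem_toList]
      exact List.getElem_mem hlt
    · right
      exact List.getD_eq_default _ _ (not_lt.mp hlt)
  intro t ht
  obtain ⟨n, hn, hnt⟩ := List.getElem_of_mem (Finset.mem_toList.mpr ht)
  have hn' : n < T.card := by rwa [Finset.length_toList] at hn
  refine ⟨⟨n / 2, by omega⟩, ⟨n % 2, Nat.mod_lt _ (by norm_num)⟩, ?_⟩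
  show T.toList.getD (2 * (n / 2) + n % 2) 1 = t
  rw [Nat.div_add_mod, List.getD_eq_getElem _ _ hn, hnt]

theorem step_card {Y : Type} [Fintype Y] [DecidableEq Y] (q : ℕ)
    (F : Finset (Y × Option (Fin q × Fin 2)))
    (hF : ∀ j : Fin q, ((Finset.univ : Finset Y).filter fun y => (y, some (j, 0)) ∈ F).card +
      ((Finset.univ : Finset Y).filter fun y => (y, some (j, 1)) ∈ F).card ≤ Fintype.card Y) :
    F.card ≤ (q + 1) * Fintype.card Y := by
  rw [card_labels F, Fintype.sum_option, Fintype.sum_prod_type]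
  have h1 : ((Finset.univ : Finset Y).filter fun y => (y, (none : Option (Fin q × Fin 2))) ∈
      F).card ≤ Fintype.card Y := Finset.card_le_univ _
  have h2 : ∑ j : Fin q, ∑ l : Fin 2, ((Finset.univ : Finset Y).filter fun y =>
      (y, some (j, l)) ∈ F).card ≤ ∑ _j : Fin q, Fintype.card Y := by
    refine Finset.sum_le_sum fun j _ => ?_
    rw [Fin.sum_univ_two]
    exact hF j
  rw [Finset.sum_const, Finset.card_univ, Fintype.card_fin, smul_eq_mul] at h2
  calc _ ≤ Fintype.card Y + q * Fintype.card Y := Nat.add_le_add h1 h2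
    _ = (q + 1) * Fintype.card Y := by ring

/-- the iteration -/
theorem iter_core {G : Type} [Group G] (hfg : Group.FG G) (hRF : RF G) (hRG : PosRG G) (v : G)
    (hv : ∀ n : ℕ, 0 < n → v ^ n ≠ 1)
    (hstep : ∀ (H : Subgroup G) (T : Finset G), H.index ≠ 0 → Subgroup.closure (T : Set G) = H →
      ∃ (H₁ : Subgroup G) (T₁ : Finset G) (m : ℕ), H₁.index ≠ 0 ∧
        Subgroup.closure (T₁ : Set G) = H₁ ∧ H₁.index = m * H.index ∧
        T₁.card ≤ ((T.card + 1) / 2 + 1) * m) : False := by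
  obtain ⟨ε, hε, hr⟩ := hRG
  obtain ⟨M, hM⟩ := exists_nat_ge (6 / ε)
  obtain ⟨N₀, -, hN₀, hMN₀⟩ := large_index hRF v hv M
  have hfi : N₀.FiniteIndex := ⟨hN₀⟩
  obtain ⟨T₀, hT₀⟩ : ∃ T₀ : Finset G, Subgroup.closure (T₀ : Set G) = N₀ := by
    have h1 : Group.FG N₀ := Subgroup.fg_of_index_ne_zero N₀
    exact (Group.fg_iff_subgroup_fg N₀).mp h1
  have key : ∀ n : ℕ, ∃ (H : Subgroup G) (T : Finset G), H.index ≠ 0 ∧ M ≤ H.index ∧
      Subgroup.closure (T : Set G) = H ∧ (T.card : ℝ) ≤ (3 / 4) ^ n * T₀.card * H.index := by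
    intro n
    induction n with
    | zero =>
      refine ⟨N₀, T₀, hN₀, hMN₀, hT₀, ?_⟩
      have h1 : (1 : ℝ) ≤ N₀.index := by exact_mod_cast Nat.one_le_iff_ne_zero.mpr hN₀
      have h2 : (0 : ℝ) ≤ T₀.card := Nat.cast_nonneg _
      rw [pow_zero, one_mul]
      nlinarith
    | succ n ih =>
      obtain ⟨H, T, hH, hMH, hT, hb⟩ := ih
      obtain ⟨H₁, T₁, m, hH₁, hT₁, hm, hc⟩ := hstep H T hH hT
      have hm1 : 1 ≤ m := by
        rcases Nat.eq_zero_or_pos m with h | h
        · rw [h, zero_mul] at hm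
          exact absurd hm hH₁
        · exact h
      refine ⟨H₁, T₁, hH₁, ?_, hT₁, ?_⟩
      · rw [hm]
        exact hMH.trans (Nat.le_mul_of_pos_left _ hm1)
      · have h1 := hr H T hH hT
        have h2 : (6 : ℝ) ≤ T.card := by
          have h3 : (6 : ℝ) ≤ ε * M := by
            rw [div_le_iff₀ hε] at hM
            linarith
          have h4 : (M : ℝ) ≤ H.index := by exact_mod_cast hMH
          nlinarith
        have h5 : (T₁.card : ℝ) ≤ (((T.card + 1) / 2 : ℕ) + 1 : ℝ) * m := by exact_mod_cast hc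
        have h6 : (((T.card + 1) / 2 : ℕ) : ℝ) ≤ ((T.card : ℝ) + 1) / 2 := by
          have := @Nat.cast_div_le ℝ _ _ _ (T.card + 1) 2
          push_cast at this
          exact this
        have h7 : (0 : ℝ) ≤ m := Nat.cast_nonneg _
        have h8 : (H₁.index : ℝ) = m * H.index := by exact_mod_cast hm
        calc (T₁.card : ℝ) ≤ (((T.card + 1) / 2 : ℕ) + 1 : ℝ) * m := h5
          _ ≤ (3 / 4 * T.card) * m := mul_le_mul_of_nonneg_right (by linarith) h7
          _ ≤ (3 / 4 * ((3 / 4) ^ n * T₀.card * H.index)) * m :=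
            mul_le_mul_of_nonneg_right (by linarith) h7
          _ = (3 / 4) ^ (n + 1) * T₀.card * H₁.index := by
            rw [h8, pow_succ]
            ring
  obtain ⟨n, hn⟩ := exists_pow_lt_of_lt_one (show 0 < ε / ((T₀.card : ℝ) + 1) by positivity)
    (show (3 / 4 : ℝ) < 1 by norm_num)
  obtain ⟨H, T, hH, -, hT, hb⟩ := key n
  have h1 := hr H T hH hT
  have h2 : (1 : ℝ) ≤ H.index := by exact_mod_cast Nat.one_le_iff_ne_zero.mpr hH
  have h3 : (0 : ℝ) ≤ T₀.card := Nat.cast_nonneg _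
  have h4 : (3 / 4 : ℝ) ^ n * ((T₀.card : ℝ) + 1) < ε := by
    rwa [lt_div_iff₀ (by positivity)] at hn
  have h5 : (0 : ℝ) < (3 / 4 : ℝ) ^ n := by positivity
  have h6 : (3 / 4 : ℝ) ^ n * T₀.card < ε := by nlinarith
  nlinarith

/-- generators of a subgroup, in pairs -/
theorem pack_sub {G : Type} [Group G] (H : Subgroup G) (T : Finset G)
    (hT : Subgroup.closure (T : Set G) = H) :
    ∃ h : Fin ((T.card + 1) / 2) → Fin 2 → H,
      Subgroup.closure (Set.range (fun p : Fin ((T.card + 1) / 2) × Fin 2 => h p.1 p.2)) = ⊤ := by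
  obtain ⟨h, h1, h2⟩ := pack T
  have hH : ∀ j i, h j i ∈ H := by
    intro j i
    rcases h2 j i with h3 | h3
    · rw [← hT]
      exact Subgroup.subset_closure h3
    · rw [h3]
      exact H.one_mem
  refine ⟨fun j i => ⟨h j i, hH j i⟩, ?_⟩
  obtain ⟨L, hL⟩ : ∃ L : Subgroup H, L = Subgroup.closure (Set.range
    (fun p : Fin ((T.card + 1) / 2) × Fin 2 => (⟨h p.1 p.2, hH p.1 p.2⟩ : H))) := ⟨_, rfl⟩
  have h3 : Subgroup.closure (T : Set G) ≤ L.map H.subtype := by
    rw [Subgroup.closure_le]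
    intro t ht
    obtain ⟨j, i, rfl⟩ := h1 t ht
    refine ⟨⟨h j i, hH j i⟩, ?_, rfl⟩
    rw [hL]
    exact Subgroup.subset_closure ⟨(j, i), rfl⟩
  show Subgroup.closure (Set.range
    (fun p : Fin ((T.card + 1) / 2) × Fin 2 => (⟨h p.1 p.2, hH p.1 p.2⟩ : H))) = ⊤
  rw [← hL, Subgroup.eq_top_iff']
  intro x
  have h4 : (x : G) ∈ Subgroup.closure (T : Set G) := by
    rw [hT]
    exact x.2
  obtain ⟨y, hy, hyx⟩ := h3 h4
  have h5 : y = x := Subtype.ext hyx
  rwa [← h5]

/-- from a subgroup of `H` back to `G` -/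
theorem lift_sub {G : Type} [Group G] (H : Subgroup G) (hH : H.index ≠ 0) (N : Subgroup H)
    (T : Finset H) (hN : N.index ≠ 0) (hT : Subgroup.closure (T : Set H) = N) (B : ℕ)
    (hc : T.card ≤ B * N.index) :
    ∃ (H₁ : Subgroup G) (T₁ : Finset G) (m : ℕ), H₁.index ≠ 0 ∧
        Subgroup.closure (T₁ : Set G) = H₁ ∧ H₁.index = m * H.index ∧
        T₁.card ≤ B * m := by
  classical
  refine ⟨N.map H.subtype, T.image H.subtype, N.index, ?_, ?_, ?_, ?_⟩
  · rw [Subgroup.index_map_subtype]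
    exact Nat.mul_ne_zero hN hH
  · rw [Finset.coe_image, ← MonoidHom.map_closure, hT]
  · rw [Subgroup.index_map_subtype]
  · exact Finset.card_image_le.trans hc

end Pool.Agent.Run7.h957.TN
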