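import Pool.Agent.Run7.h957.TN_cost0
import Pool.Agent.Run7.h968.TN.Cost

/-!
# Project TN (helper968): the piece cost
-/

set_option autoImplicit false

namespace Pool.Agent.Run7.h957.TN

open Pool.Agent.Run7.h968.TN

theorem t_cost : P_cost := by
  intro G _ _ H T h hT
  have : H.FiniteIndex := ⟨h⟩
  exact cost_le H T hT

end Pool.Agent.Run7.h957.TN
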