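import Pool.Agent.W336.CS.Chain
import Pool.Agent.W401.CS.Real

/-!
# Project TN (helper968): the piece cost (the cost of a group is at most `1 + (d(H) / [G : H])`)
-/

set_option autoImplicit false

namespace Pool.Agent.Run7.h957.TN

open MeasureTheory Pool.Agent.W336.CS

variable {G : Type} [Group G]

open scoped Classical in
/-- the configuration of the coset `y` -/
noncomputable def cfg (H : Subgroup G) (F : Finset G) (y : G ⧸ H) : Cfg G :=
  fun e => decide (e.1 • y = ((1 : G) : G ⧸ H) ∧ e.2 ∈ F)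

theorem cfg_iff (H : Subgroup G) (F : Finset G) (y : G ⧸ H) (a s : G) :
    cfg H F y (a, s) = true ↔ a • y = ((1 : G) : G ⧸ H) ∧ s ∈ F := by
  unfold cfg
  simp

theorem shift_cfg (H : Subgroup G) (F : Finset G) (h : G) (y : G ⧸ H) :
    shift h (cfg H F y) = cfg H F (h • y) := by
  funext e
  unfold shift cfg
  simp only
  rw [mul_smul]

/-- the uniform measure on the configurations of the cosets -/
noncomputable def nu (H : Subgroup G) [Fintype (G ⧸ H)] (F : Finset G) : Measure (Cfg G) :=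
  ∑ y : G ⧸ H, (Fintype.card (G ⧸ H) : ENNReal)⁻¹ • Measure.dirac (cfg H F y)

section
variable (H : Subgroup G) [Fintype (G ⧸ H)] (F : Finset G)

theorem nu_apply {A : Set (Cfg G)} (hA : MeasurableSet A) : nu H F A =
    ∑ y : G ⧸ H, (Fintype.card (G ⧸ H) : ENNReal)⁻¹ * A.indicator 1 (cfg H F y) := by
  unfold nu
  rw [Measure.finsetSum_apply]
  refine Finset.sum_congr rfl fun y _ => ?_
  rw [Measure.smul_apply, Measure.dirac_apply' _ hA, smul_eq_mul]

theorem nu_apply' [Countable G] (A : Set (Cfg G)) : nu H F A =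
    ∑ y : G ⧸ H, (Fintype.card (G ⧸ H) : ENNReal)⁻¹ * A.indicator 1 (cfg H F y) := by
  unfold nu
  rw [Measure.finsetSum_apply]
  refine Finset.sum_congr rfl fun y _ => ?_
  rw [Measure.smul_apply, Measure.dirac_apply, smul_eq_mul]

theorem card_ne : (Fintype.card (G ⧸ H) : ENNReal) ≠ 0 := by
  have : Nonempty (G ⧸ H) := ⟨((1 : G) : G ⧸ H)⟩
  exact_mod_cast Fintype.card_ne_zero

theorem nu_prob : IsProbabilityMeasure (nu H F) := by
  constructor
  rw [nu_apply H F MeasurableSet.univ]
  simp only [Set.indicator_univ, Pi.one_apply, mul_one, Finset.sum_const, Finset.card_univ,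
    nsmul_eq_mul]
  exact ENNReal.mul_inv_cancel (card_ne H) (ENNReal.natCast_ne_top _)

theorem nu_inv : Inv (nu H F) := by
  intro h
  ext A hA
  rw [Measure.map_apply (measurable_shift h) hA, nu_apply H F (measurable_shift h hA),
    nu_apply H F hA]
  refine Fintype.sum_equiv (MulAction.toPerm h) _ _ fun y => ?_
  congr 1
  show (shift h ⁻¹' A).indicator 1 (cfg H F y) = A.indicator 1 (cfg H F (h • y))
  rw [← shift_cfg]
  rfl

theorem nu_cost : cost (nu H F) = (F.card : ENNReal) * (Fintype.card (G ⧸ H) : ENNReal)⁻¹ := by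
  classical
  unfold cost
  have h1 : ∀ s, nu H F {ω | ω (1, s) = true} =
      if s ∈ F then (Fintype.card (G ⧸ H) : ENNReal)⁻¹ else 0 := by
    intro s
    have hm : MeasurableSet {ω : Cfg G | ω (1, s) = true} :=
      measurableSet_eq_fun (measurable_pi_apply _) measurable_const
    rw [nu_apply H F hm]
    have h2 : ∀ y : G ⧸ H, (Fintype.card (G ⧸ H) : ENNReal)⁻¹ *
        ({ω : Cfg G | ω (1, s) = true}).indicator 1 (cfg H F y) =
          if y = ((1 : G) : G ⧸ H) then
            (if s ∈ F then (Fintype.card (G ⧸ H) : ENNReal)⁻¹ else 0) else 0 := by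
      intro y
      have h3 : (cfg H F y ∈ {ω : Cfg G | ω (1, s) = true}) ↔
          (y = ((1 : G) : G ⧸ H) ∧ s ∈ F) := by
        rw [Set.mem_ofPred_eq, cfg_iff, one_smul]
      by_cases hy : y = ((1 : G) : G ⧸ H)
      · by_cases hs : s ∈ F
        · rw [Set.indicator_of_mem (h3.mpr ⟨hy, hs⟩), if_pos hy, if_pos hs, Pi.one_apply, mul_one]
        · rw [Set.indicator_of_notMem (fun h => hs (h3.mp h).2), if_pos hy, if_neg hs, mul_zero]
      · rw [Set.indicator_of_notMem (fun h => hy (h3.mp h).1), if_neg hy, mul_zero]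
    rw [Finset.sum_congr rfl fun y _ => h2 y, Finset.sum_ite_eq', if_pos (Finset.mem_univ _)]
  simp only [h1]
  rw [tsum_eq_sum (s := F) (fun s hs => if_neg hs), Finset.sum_congr rfl fun s hs => if_pos hs,
    Finset.sum_const, nsmul_eq_mul]

end

theorem conn_cfg (H : Subgroup G) (F T : Finset G)
    (hT : Subgroup.closure (T : Set G) = H) (hTF : T ⊆ F)
    (r : G ⧸ H → G) (hr : ∀ z, ((r z : G) : G ⧸ H) = z) (hrF : ∀ z, r z ∈ F) (y : G ⧸ H)
    (a b : G) : Conn ∅ (cfg H F y) a b := by
  have edge : ∀ a s : G, a • y = ((1 : G) : G ⧸ H) → s ∈ F → Conn ∅ (cfg H F y) a (s * a) :=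
    fun a s ha hs => Conn.edge ((cfg_iff H F y a s).mpr ⟨ha, hs⟩)
  have h0 : ∀ a : G, ((r (a • y))⁻¹ * a) • y = ((1 : G) : G ⧸ H) := by
    intro a
    obtain ⟨z, hz⟩ : ∃ z, z = a • y := ⟨_, rfl⟩
    rw [mul_smul, ← hz]
    calc (r z)⁻¹ • z = (r z)⁻¹ • ((r z : G) : G ⧸ H) := by rw [hr]
      _ = (((r z)⁻¹ * r z : G) : G ⧸ H) := rfl
      _ = ((1 : G) : G ⧸ H) := by rw [inv_mul_cancel]
  have h1 : ∀ a : G, Conn ∅ (cfg H F y) ((r (a • y))⁻¹ * a) a := by
    intro a
    have h2 := edge ((r (a • y))⁻¹ * a) (r (a • y)) (h0 a) (hrF _)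
    rwa [mul_inv_cancel_left] at h2
  have hH : ∀ u ∈ H, ∀ a : G, a • y = ((1 : G) : G ⧸ H) → (u * a) • y = ((1 : G) : G ⧸ H) := by
    intro u hu a ha
    rw [mul_smul, ha]
    show ((u * 1 : G) : G ⧸ H) = _
    rw [QuotientGroup.eq, mul_one, mul_one]
    exact H.inv_mem hu
  have h2 : ∀ u ∈ Subgroup.closure (T : Set G), ∀ a : G, a • y = ((1 : G) : G ⧸ H) →
      Conn ∅ (cfg H F y) a (u * a) := by
    intro u hu
    induction hu using Subgroup.closure_induction with
    | mem x hx => exact fun a ha => edge a x ha (hTF hx)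
    | one =>
      intro a _
      rw [one_mul]
      exact Conn.refl _ _ _
    | mul x z hx hz ihx ihz =>
      intro a ha
      rw [mul_assoc]
      exact (ihz a ha).trans (ihx (z * a) (hH z (hT ▸ hz) a ha))
    | inv x hx ih =>
      intro a ha
      have h3 := ih (x⁻¹ * a) (hH x⁻¹ (H.inv_mem (hT ▸ hx)) a ha)
      rw [mul_inv_cancel_left] at h3
      exact h3.symm
  obtain ⟨a', ha'⟩ : ∃ a', a' = (r (a • y))⁻¹ * a := ⟨_, rfl⟩
  obtain ⟨b', hb'⟩ : ∃ b', b' = (r (b • y))⁻¹ * b := ⟨_, rfl⟩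
  have ha1 := h0 a
  have hb1 := h0 b
  have ha2 := h1 a
  have hb2 := h1 b
  rw [← ha'] at ha1 ha2
  rw [← hb'] at hb1 hb2
  have hu : b' * a'⁻¹ ∈ H := by
    have h4 : (b' * a'⁻¹) • ((1 : G) : G ⧸ H) = ((1 : G) : G ⧸ H) := by
      rw [mul_smul]
      conv_lhs => rw [← ha1, inv_smul_smul]
      exact hb1
    have h5 : ((b' * a'⁻¹ * 1 : G) : G ⧸ H) = ((1 : G) : G ⧸ H) := h4
    rw [QuotientGroup.eq, mul_one, mul_one] at h5
    have h6 := H.inv_mem h5
    rwa [inv_inv] at h6
  have h7 := h2 (b' * a'⁻¹) (by rw [hT]; exact hu) a' ha1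
  rw [inv_mul_cancel_right] at h7
  exact ha2.symm.trans (h7.trans hb2)

theorem rc_coset [Countable G] (H : Subgroup G) [H.FiniteIndex] (T : Finset G)
    (hT : Subgroup.closure (T : Set G) = H) :
    RC (∅ : Set G) Set.univ (1 + (T.card : ENNReal) / (H.index : ENNReal)) := by
  classical
  have : Finite (G ⧸ H) := Subgroup.finite_quotient_of_finiteIndex
  let _ : Fintype (G ⧸ H) := Fintype.ofFinite _
  obtain ⟨r, hr⟩ : ∃ r : G ⧸ H → G, ∀ z, ((r z : G) : G ⧸ H) = z :=
    ⟨fun z => z.out, fun z => QuotientGroup.out_eq' z⟩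
  obtain ⟨F, hF⟩ : ∃ F : Finset G, F = T ∪ Finset.univ.image r := ⟨_, rfl⟩
  have hidx : H.index = Fintype.card (G ⧸ H) := by
    rw [Subgroup.index_eq_card, Nat.card_eq_fintype_card]
  refine ⟨nu H F, nu_prob H F, nu_inv H F, ?_, ?_⟩
  · rw [nu_cost]
    have h1 : F.card ≤ T.card + Fintype.card (G ⧸ H) := by
      rw [hF]
      refine (Finset.card_union_le _ _).trans (Nat.add_le_add_left ?_ _)
      exact Finset.card_image_le
    have h2 : (F.card : ENNReal) ≤ (T.card : ENNReal) + (Fintype.card (G ⧸ H) : ENNReal) := by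
      exact_mod_cast h1
    calc (F.card : ENNReal) * (Fintype.card (G ⧸ H) : ENNReal)⁻¹
        ≤ ((T.card : ENNReal) + (Fintype.card (G ⧸ H) : ENNReal)) *
          (Fintype.card (G ⧸ H) : ENNReal)⁻¹ := mul_le_mul_left h2 _
      _ = 1 + (T.card : ENNReal) / (H.index : ENNReal) := by
        rw [add_mul, ENNReal.mul_inv_cancel (card_ne H) (ENNReal.natCast_ne_top _), add_comm, hidx,
          ENNReal.div_eq_inv_mul, mul_comm]
  · rw [ae_iff, nu_apply']
    refine Finset.sum_eq_zero fun y _ => ?_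
    rw [Set.indicator_of_notMem, mul_zero]
    intro hmem
    refine hmem fun g s _ => ?_
    refine conn_cfg H F T hT ?_ r hr ?_ y g (s * g)
    · rw [hF]
      exact Finset.subset_union_left
    · intro z
      rw [hF]
      exact Finset.mem_union_right _ (Finset.mem_image_of_mem _ (Finset.mem_univ z))

/-- The cost of a countable group is at most `1 + |T| / [G : H]`, for every finite generating set
`T` of a subgroup `H` of finite index. -/
theorem cost_le [Countable G] (H : Subgroup G) [H.FiniteIndex] (T : Finset G)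
    (hT : Subgroup.closure (T : Set G) = H) :
    CostLe G (1 + (T.card : ENNReal) / (H.index : ENNReal)) := by
  have h := chain Pool.Agent.W401.CS.real (G := G) (Equiv.refl ℕ) (· < ·) wellFounded_lt
    (fun _ => ∅) (fun n => if n = 0 then Set.univ else ∅)
    (fun n => if n = 0 then (1 + (T.card : ENNReal) / (H.index : ENNReal)) else 0)
    (by
      intro n
      by_cases hn : n = 0
      · simp only [hn, if_true]
        exact rc_coset H T hT
      · simp only [hn, if_false]
        exact RC.empty _ _)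
    (by
      intro n u hu
      exact absurd hu (Set.notMem_empty u))
    (by
      rw [Subgroup.eq_top_iff']
      intro g
      refine Subgroup.subset_closure (Set.mem_iUnion.mpr ⟨0, ?_⟩)
      simp)
  rwa [tsum_eq_single 0 (fun n hn => if_neg hn), if_pos rfl] at h

end Pool.Agent.Run7.h957.TN
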