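import Pool.Agent.Run7.h957.TN_base
import Pool.Agent.Run7.h968.TN.Defs5

/-!
# Project TN (helper968): the pieces step5 and iter5
-/

set_option autoImplicit false

namespace Pool.Agent.Run7.h957.TN

open Pool.Agent.Run7.h968.TN

theorem t_step5 (h1 : P_min5) (h2 : P_count5) (h3 : P_gens) (h4 : P_rf) : P_step5 := by
  classical
  intro K _ hRF u hu q h hcl hbad
  choose A₁ A₂ V hcard hA₁ hA₂ using hbad
  obtain ⟨B, hB⟩ : ∃ B : Finset K, B = (Finset.univ : Finset (Fin q)).biUnion fun j =>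
      (A₁ j ×ˢ A₁ j).image (fun p => p.1⁻¹ * p.2) ∪ (A₂ j ×ˢ A₂ j).image (fun p => p.1⁻¹ * p.2) :=
    ⟨_, rfl⟩
  obtain ⟨N, hN, hi, hNB⟩ := h4 K hRF B
  have : N.Normal := hN
  have : N.FiniteIndex := ⟨hi⟩
  have : Finite (K ⧸ N) := Subgroup.finite_quotient_of_finiteIndex
  let _ : Fintype (K ⧸ N) := Fintype.ofFinite _
  have sep : ∀ (j : Fin q) (A : Finset K), (A = A₁ j ∨ A = A₂ j) →
      ∀ a ∈ A, ∀ b ∈ A, a⁻¹ * b ∈ N → a = b := by
    intro j A hA a ha b hb hab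
    have h5 : a⁻¹ * b ∈ B := by
      rw [hB, Finset.mem_biUnion]
      refine ⟨j, Finset.mem_univ _, ?_⟩
      rw [Finset.mem_union]
      rcases hA with rfl | rfl
      · exact Or.inl (Finset.mem_image.mpr ⟨(a, b), Finset.mem_product.mpr ⟨ha, hb⟩, rfl⟩)
      · exact Or.inr (Finset.mem_image.mpr ⟨(a, b), Finset.mem_product.mpr ⟨ha, hb⟩, rfl⟩)
    have h6 := hNB _ h5 hab
    exact inv_mul_eq_one.mp h6
  obtain ⟨hh, hhdef⟩ : ∃ hh : Option (Fin q × Fin 2) → K,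
      hh = fun o => o.elim u (fun p => h p.1 p.2) := ⟨_, rfl⟩
  have hcl' : Subgroup.closure (Set.range hh) = ⊤ := by
    rw [eq_top_iff, ← hcl, Subgroup.closure_le]
    rintro x ⟨p, rfl⟩
    refine Subgroup.subset_closure ⟨some p, ?_⟩
    rw [hhdef]
    rfl
  obtain ⟨F, ⟨hF1, hF2⟩, hFmin⟩ := exists_min
    (fun F : Finset ((K ⧸ N) × Option (Fin q × Fin 2)) =>
      Spans N hh F ∧ ∀ y : K ⧸ N, (y, (none : Option (Fin q × Fin 2))) ∈ F)
    Finset.univ ⟨spans_univ N hh hcl', fun _ => Finset.mem_univ _⟩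
  have hu' : InfOrd (hh none) := by
    rw [hhdef]
    exact hu
  have key : ∀ j : Fin q,
      ((Finset.univ : Finset (K ⧸ N)).filter fun y => (y, some (j, (0 : Fin 2))) ∈ F).card +
      ((Finset.univ : Finset (K ⧸ N)).filter fun y => (y, some (j, (1 : Fin 2))) ∈ F).card ≤
        Fintype.card (K ⧸ N) := by
    intro j
    refine h2 K N (Option (Fin q × Fin 2)) F (fun l => some (j, l)) (A₁ j) (A₂ j) (V j) (hcard j) ?_
    refine h1 K N (Option (Fin q × Fin 2)) hh none F hu' hF1 hF2 ?_ (fun l => some (j, l)) ?_ ?_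
      (A₁ j) (A₂ j) (V j) ?_ ?_ (sep j _ (Or.inl rfl)) (sep j _ (Or.inr rfl))
    · intro F' hs hne hy hsp
      exact hFmin F' hs hne ⟨hsp, hy⟩
    · intro l l' hll
      simpa using hll
    · intro l
      simp
    · intro a ha
      rw [hhdef]
      exact hA₁ j a ha
    · intro a ha
      rw [hhdef]
      exact hA₂ j a ha
  have h7 := step_card q F key
  obtain ⟨T, hT, hTF⟩ := h3 K N (Option (Fin q × Fin 2)) hh F hF1
  refine ⟨N, T, hi, hT, hTF.trans ?_⟩
  rw [Subgroup.index_eq_card, Nat.card_eq_fintype_card]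
  exact h7

theorem t_iter5 (h1 : P_step5) (h2 : P_restr5) : P_iter5 := by
  intro G _ hfg hRF hRG u hu
  by_contra hno
  push Not at hno
  refine iter_core hfg hRF hRG u hu ?_
  intro H T hH hT
  obtain ⟨h, hh⟩ := pack_sub H T hT
  obtain ⟨k, hk, -, hkH⟩ := Subgroup.exists_pow_mem_of_index_ne_zero hH u
  have hinf : InfOrd (u ^ k) := by
    intro n hn
    rw [← pow_mul]
    exact hu _ (Nat.mul_pos hk hn)
  have hinf' : InfOrd (⟨u ^ k, hkH⟩ : H) := by
    intro n hn hn1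
    exact hinf n hn (by simpa using congrArg (Subtype.val) hn1)
  obtain ⟨N, T₁, hN, hT₁, hc⟩ := h1 H (RF_sub hRF H) ⟨u ^ k, hkH⟩ hinf' _ h hh
    (fun j => h2 G H ⟨u ^ k, hkH⟩ (h j) (hno (u ^ k) (fun i => (h j i : G)) hinf))
  exact lift_sub H hH N T₁ hN hT₁ _ hc

end Pool.Agent.Run7.h957.TN
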